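import Mathlib

set_option autoImplicit false

/-!
# Project CR: the corona constants of the unit balls grow exponentially; statements of the lemmas

Paper proofs are given in the docstrings.
-/

namespace Pool.Agent.H576.CR

open Finset

/-- the square of the Euclidean norm of `z ∈ ℂⁿ` -/
noncomputable def nsq {n : ℕ} (z : Fin n → ℂ) : ℝ := ∑ i, ‖z i‖ ^ 2

/-- the sign given by a Boolean -/
def sg (b : Bool) : ℝ := if b then 1 else -1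

/-- a Rademacher sum -/
noncomputable def rad {ι : Type} [Fintype ι] (x : ι → ℝ) (e : ι → Bool) : ℝ :=
  ∑ i, sg (e i) * x i

/-- a quadratic form with random signs -/
noncomputable def rq {n : ℕ} (e : Fin n × Fin n → Bool) (z : Fin n → ℂ) : ℂ :=
  ∑ p : Fin n × Fin n, (sg (e p) : ℂ) * (z p.1 * z p.2)

/-- NET: the unit sphere of `ℂⁿ` has an `ε`-net with at most `A ^ n` points.

Proof. Let `h = ε / √n` and let `T` be the set of the vectors with the coordinates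
`h (a_j + b_j i)`, `a_j, b_j` integers with `∑ |a_j| + |b_j| ≤ R`, `R = ⌈(√2 / ε + 1) n⌉`. Rounding
`Re z_j / h` and `Im z_j / h` to the nearest integers gives `w` with `|z - w|² ≤ n h² / 2 ≤ ε²`, and
`∑ |a_j| + |b_j| ≤ (∑ |Re z_j| + |Im z_j|) / h + n ≤ √(2 n) / h + n` (Cauchy-Schwarz). The number
of the integer vectors `m ∈ [-R, R] ^ (2 n)` with `∑ |m_j| ≤ R` is at most
`2 ^ R ∑_m ∏ 2 ^ (-|m_j|) = 2 ^ R (∑_{|m| ≤ R} 2 ^ (-|m|)) ^ (2 n) ≤ 2 ^ R 3 ^ (2 n)`.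
(For `n = 0` take `T = ∅`.) Any other construction of a net is welcome. -/
def S_NET : Prop :=
  ∀ ε : ℝ, 0 < ε → ∃ A : ℕ, ∀ n : ℕ, ∃ T : Finset (Fin n → ℂ),
    T.card ≤ A ^ n ∧ ∀ z : Fin n → ℂ, nsq z = 1 → ∃ w ∈ T, nsq (z - w) ≤ ε ^ 2

/-- EXP: exponential square moment of a Rademacher sum.

Proof. Induction over `s : Finset ι` for the sums `X_s = ∑_{i ∈ s} ± x_i`, for all `μ`
simultaneously: `∑_e exp (μ X_s²) ≤ 2 ^ card ι / √(1 - 2 μ σ_s²)`, `σ_s² = ∑_{i ∈ s} x_i²`.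
For `i ∉ s`, averaging over `e` and `e` with the sign `i` flipped (a bijection, and `X_s` does not
change) gives `½ (exp (μ (X_s + x_i)²) + exp (μ (X_s - x_i)²)) = exp (μ X_s² + μ x_i²) cosh (2 μ x_i X_s)
≤ exp (μ x_i²) exp (μ (1 + 2 μ x_i²) X_s²)` by `cosh y ≤ exp (y² / 2)`. With `a = 2 μ x_i²`,
`b = 2 μ σ_s²` it remains `exp (a / 2) / √(1 - b (1 + a)) ≤ 1 / √(1 - a - b)`, that is
`exp a (1 - a - b) ≤ 1 - b (1 + a)`, which holds since `exp a (1 - a) ≤ 1` and `exp a ≥ 1 + a`. -/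
def S_EXP : Prop :=
  ∀ (ι : Type) [Fintype ι] [DecidableEq ι] (x : ι → ℝ) (μ : ℝ), 0 ≤ μ →
    2 * μ * ∑ i, x i ^ 2 < 1 →
    ∑ e : ι → Bool, Real.exp (μ * rad x e ^ 2) ≤
      2 ^ Fintype.card ι / Real.sqrt (1 - 2 * μ * ∑ i, x i ^ 2)

/-- SQ: the second moment of a Rademacher sum (same induction). -/
def S_SQ : Prop :=
  ∀ (ι : Type) [Fintype ι] [DecidableEq ι] (x : ι → ℝ),
    ∑ e : ι → Bool, rad x e ^ 2 = 2 ^ Fintype.card ι * ∑ i, x i ^ 2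

/-- UP: upper tail of `∑_k |g_k(z)|²` for `N` independent random quadratic forms.

Proof (from EXP). Both sides are homogeneous, so let `nsq z = 1` (the case `z = 0` is trivial). The
real and imaginary parts `X`, `Y` of `rq e z` are Rademacher sums with coefficients
`Re (z_i z_j)`, `Im (z_i z_j)`, whose squares have sums at most `∑_{i, j} |z_i z_j|² = 1`. So
`∑_e exp (3/16 |rq e z|²) ≤ ∑_e ½ (exp (3/8 X²) + exp (3/8 Y²)) ≤ 2 · 2 ^ (n²)` by EXP with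
`μ = 3/8`. The sum over `E` of the products over `k` is the product of the sums
(`Finset.sum_prod_piFinset` or `Finset.prod_univ_sum`), so
`∑_E exp (3/16 ∑_k |g_k|²) ≤ (2 · 2 ^ (n²)) ^ N`; now use Markov's inequality. -/
def S_UP : Prop :=
  ∀ (n N : ℕ) (z : Fin n → ℂ) (K : ℝ),
    ((univ.filter fun E : Fin N → (Fin n × Fin n → Bool) =>
      K * N * nsq z ^ 2 < ∑ k, ‖rq (E k) z‖ ^ 2).card : ℝ) ≤
      (2 ^ (n * n)) ^ N * (2 * Real.exp (-(3 / 16 * K))) ^ N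

/-- LO: lower tail of `∑_k |g_k(z)|²` for `N` independent random quadratic forms.

Proof (from EXP and SQ). Let `nsq z = 1`. By SQ, `∑_e |rq e z|² = 2 ^ (n²)`. By EXP with
`μ = 1/4` and `y²/2 ≤ exp y`: `∑_e X⁴ ≤ 32 ∑_e exp (X² / 4) ≤ 32 √2 2 ^ (n²) ≤ 50 · 2 ^ (n²)`, the same
for `Y`, so `∑_e |rq e z|⁴ ≤ 200 · 2 ^ (n²)`. By `exp (-y) ≤ 1 - y + y²/2` (`y ≥ 0`) with
`λ = 1/200`: `∑_e exp (-λ |rq e z|²) ≤ (1 - λ + 100 λ²) 2 ^ (n²) = (1 - 1/400) 2 ^ (n²) ≤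
exp (-1/400) 2 ^ (n²)`. Take the product over `k` and use Markov's inequality with
`∑_k |g_k|² < N / 4`: the number of the `E` is at most
`2 ^ (n² N) exp (λ N / 4 - N / 400) = 2 ^ (n² N) exp (-N / 800)`. -/
def S_LO : Prop :=
  ∀ (n N : ℕ) (z : Fin n → ℂ),
    ((univ.filter fun E : Fin N → (Fin n × Fin n → Bool) =>
      ∑ k, ‖rq (E k) z‖ ^ 2 < N / 4 * nsq z ^ 2).card : ℝ) ≤
      (2 ^ (n * n)) ^ N * Real.exp (-(N / 800))

/-- FLAT: `O(n)` quadratic forms on `ℂⁿ` whose sum of squares is comparable to `|z|⁴`. -/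
def S_FLAT : Prop :=
  ∃ (C : ℕ) (δ : ℝ), 0 < δ ∧ ∀ n : ℕ, ∃ N ≤ C * n, ∃ G : Fin N → Fin n → Fin n → ℂ,
    ∀ z : Fin n → ℂ, δ * nsq z ^ 2 ≤ ∑ k, ‖∑ i, ∑ j, G k i j * z i * z j‖ ^ 2 ∧
      ∑ k, ‖∑ i, ∑ j, G k i j * z i * z j‖ ^ 2 ≤ nsq z ^ 2

/-- The adjoint of the multiplication by the quadratic form with coefficients `G` on squarefree
polynomials: `(ann G Ψ) (T) = ∑_{i ≠ j, i, j ∉ T} G i j Ψ (T ∪ {i, j})`. -/
noncomputable def ann {n : ℕ} (G : Fin n → Fin n → ℂ) (Ψ : Finset (Fin n) → ℂ)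
    (T : Finset (Fin n)) : ℂ :=
  ∑ i, ∑ j, if i ∉ T ∧ j ∉ T ∧ i ≠ j then G i j * Ψ (insert i (insert j T)) else 0

/-- ALG: a Golod-Shafarevich type inequality.

Proof. Let `V_d` be the space of the `Ψ` supported on the sets with `d` elements, `dim V_d = C(n, d)`
and `K_d^k` the subspace of the `Ψ ∈ V_d` with `ann (G_i) Ψ = 0` for `i < k`, `a_k(d) = dim K_d^k`.
The operators `ann (G_i)` are combinations of products of two of the commuting operators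
`∂_i Ψ (T) = Ψ (T ∪ {i})` if `i ∉ T`, `0` if `i ∈ T`. Hence they commute, and `ann (G_k)` maps `K_d^k`
to `K_{d-2}^k` (to `0` for `d < 2`) with kernel `K_d^{k+1}`; so
`a_{k+1}(d) ≥ a_k(d) - a_k(d - 2)`. With `S_k = ∑_{d ≤ L} a_k(d) t^d` we get
`S_{k+1} ≥ S_k - t² S_k`, and `S_N ≥ (1 - t²)^N S_0 ≥ (1 - t²)^N C(n, L) t^L`. If `K_d^N = 0` for
`D ≤ d ≤ L` then `S_N ≤ ∑_{d < D} C(n, d) t^d`, a contradiction. -/
def S_ALG : Prop :=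
  ∀ (n N L D : ℕ) (t : ℝ), 0 < t → t < 1 → D ≤ L →
    ∑ d ∈ range D, (n.choose d : ℝ) * t ^ d < (1 - t ^ 2) ^ N * (n.choose L * t ^ L) →
    ∀ G : Fin N → Fin n → Fin n → ℂ, ∃ d, D ≤ d ∧ d ≤ L ∧ ∃ Ψ : Finset (Fin n) → ℂ,
      (∃ S, Ψ S ≠ 0) ∧ (∀ S, S.card ≠ d → Ψ S = 0) ∧ ∀ k T, ann (G k) Ψ T = 0

/-- NUM: numerical lemma.

Proof. Let `C ≥ 1`, `t = 1 / (64 C)`, `D = ⌊t n / 16⌋`, `L = ⌊t n / 8⌋`. With `b_d = C(n, d) t^d`,
`b_{d+1} / b_d = t (n - d) / (d + 1) ≥ 2` for `d + 1 ≤ t n / 4`, `d ≤ n / 2`. So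
`∑_{d < D} b_d ≤ b_D` (as `∑_{d < D} b_d ≤ b_D (1/2 + 1/4 + ⋯)`) and `b_L ≥ 2 ^ (L - D) b_D`. It is
enough that `(1 - t²) ^ (C n) 2 ^ (L - D) > 1`. Here `L - D ≥ t n / 16 - 1` and
`(1 - t²) ^ (C n) ≥ exp (- 2 t² C n) = exp (- t n / 32)` while `2 ^ (t n / 16 - 1) ≥
exp (0.69 (t n / 16 - 1))`, which is larger than `exp (t n / 32)` for large `n`
(`0.69 / 16 > 1 / 32`). -/
def S_NUM : Prop :=
  ∀ C : ℕ, ∃ (γ : ℝ) (n₀ : ℕ), 0 < γ ∧ ∀ n ≥ n₀, ∀ N ≤ C * n, ∃ (L D : ℕ) (t : ℝ),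
    0 < t ∧ t < 1 ∧ D ≤ L ∧ L ≤ n ∧ γ * n ≤ D ∧
    ∑ d ∈ range D, (n.choose d : ℝ) * t ^ d < (1 - t ^ 2) ^ N * (n.choose L * t ^ L)

end Pool.Agent.H576.CR
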