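import Mathlib
import Pool.Graph.R_seed8.H720R2.Lc
import Pool.Agent.H576.CR.Stm

set_option autoImplicit false

/-!
# Coefficients of squarefree monomials of holomorphic functions on a ball
-/

open MeasureTheory Complex Set Function Metric
open scoped Real
open Pool.Agent.H720R2

namespace Pool.Agent.H576.CR

variable {n : ℕ}

/-- the coefficient of the monomial `∏_{i ∈ S} z_i` in the expansion of `F` -/
noncomputable def cf (r : ℝ) (S : Finset (Fin n)) (F : (Fin n → ℂ) → ℂ) : ℂ :=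
  Lc 0 r 1 (fun z => (∏ i ∈ Sᶜ, z i) * F z)

theorem continuous_tm (r : ℝ) (T : Finset (Fin n)) :
    Continuous fun θ => ∏ i ∈ T, (torusMap (0 : Fin n → ℂ) (fun _ => r) θ) i :=
  continuous_finsetProd _ fun i _ => (continuous_apply i).comp (continuous_torusMap 0 r)

theorem cf_add {r : ℝ} (hr : 0 < r) (S : Finset (Fin n)) {F G : (Fin n → ℂ) → ℂ}
    (hF : Continuous fun θ => F (torusMap 0 (fun _ => r) θ))
    (hG : Continuous fun θ => G (torusMap 0 (fun _ => r) θ)) :
    cf r S (fun z => F z + G z) = cf r S F + cf r S G := by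
  unfold cf
  rw [← Lc_add hr 1 ((continuous_tm r _).mul hF) ((continuous_tm r _).mul hG)]
  simp only [mul_add]

theorem cf_const_mul {r : ℝ} (S : Finset (Fin n)) (a : ℂ) (F : (Fin n → ℂ) → ℂ) :
    cf r S (fun z => a * F z) = a * cf r S F := by
  unfold cf
  rw [← Lc_const_mul]
  congr 1
  funext z
  ring

theorem cf_sum {ι : Type*} {r : ℝ} (hr : 0 < r) (S : Finset (Fin n)) (s : Finset ι)
    {F : ι → (Fin n → ℂ) → ℂ}
    (hF : ∀ i ∈ s, Continuous fun θ => F i (torusMap 0 (fun _ => r) θ)) :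
    cf r S (fun z => ∑ i ∈ s, F i z) = ∑ i ∈ s, cf r S (F i) := by
  unfold cf
  rw [← Lc_sum hr 1 s fun i hi => (continuous_tm r _).mul (hF i hi)]
  simp only [Finset.mul_sum]

theorem cf_congr {r : ℝ} (hr : 0 < r) (S : Finset (Fin n)) {F G : (Fin n → ℂ) → ℂ}
    (h : ∀ θ, F (torusMap 0 (fun _ => r) θ) = G (torusMap 0 (fun _ => r) θ)) :
    cf r S F = cf r S G := by
  unfold cf
  exact Lc_congr hr 1 fun θ => by rw [h]

theorem cf_mul_mem {r : ℝ} {S : Finset (Fin n)} {i : Fin n} (hi : i ∈ S) (F : (Fin n → ℂ) → ℂ) :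
    cf r S (fun z => z i * F z) = cf r (S.erase i) F := by
  unfold cf
  congr 1
  funext z
  have h1 : (S.erase i)ᶜ = insert i Sᶜ := by
    ext j
    simp only [Finset.mem_compl, Finset.mem_erase, Finset.mem_insert]
    tauto
  rw [h1, Finset.prod_insert (by simpa using hi)]
  ring

theorem cf_mul_not_mem {r : ℝ} (hr : 0 < r) {S : Finset (Fin n)} {i : Fin n} (hi : i ∉ S)
    {U : Set (Fin n → ℂ)} (hU : IsOpen U) (hrU : Metric.closedBall 0 r ⊆ U)
    {F : (Fin n → ℂ) → ℂ} (hF : DifferentiableOn ℂ F U) :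
    cf r S (fun z => z i * F z) = 0 := by
  unfold cf
  have h1 : (fun z : Fin n → ℂ => (∏ j ∈ Sᶜ, z j) * (z i * F z)) =
      fun z => (z i - (0 : Fin n → ℂ) i) ^ 2 * ((∏ j ∈ Sᶜ.erase i, z j) * F z) := by
    funext z
    rw [← Finset.mul_prod_erase Sᶜ (fun j => z j) (Finset.mem_compl.2 hi)]
    simp only [Pi.zero_apply, sub_zero]
    ring
  rw [h1]
  refine Lc_mul_pow_eq_zero hr (by norm_num) i hU hrU ?_
  refine DifferentiableOn.mul ?_ hF
  have h2 : Differentiable ℂ fun z : Fin n → ℂ => ∏ j ∈ Sᶜ.erase i, z j := by fun_prop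
  exact h2.differentiableOn

theorem cf_empty_one {r : ℝ} (hr : 0 < r) : cf r (∅ : Finset (Fin n)) (fun _ => 1) = 1 := by
  unfold cf
  have h1 : (fun z : Fin n → ℂ => (∏ j ∈ (∅ : Finset (Fin n))ᶜ, z j) * 1) =
      fun z => W 0 z ^ 1 := by
    funext z
    simp [W]
  rw [h1]
  exact Lc_W_pow_self hr 1

theorem cf_one_eq_zero {r : ℝ} (hr : 0 < r) {S : Finset (Fin n)} (hS : S.Nonempty) :
    cf r S (fun _ => 1) = 0 := by
  obtain ⟨i, hi⟩ := hS
  obtain _ | m := n
  · exact i.elim0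
  unfold cf Lc
  rw [mul_eq_zero]
  right
  apply torusIntegral_eq_zero_of_circle _ i
  · intro Θ
    set y : Fin m → ℂ := torusMap ((0 : Fin (m + 1) → ℂ) ∘ i.succAbove) (fun _ => r) Θ with hy
    have hcirc : ∀ x ∈ sphere ((0 : Fin (m + 1) → ℂ) i) r,
        (∏ j ∈ Sᶜ, (i.insertNth x y : Fin (m + 1) → ℂ) j) * 1 *
          ((W 0 (i.insertNth x y))⁻¹) ^ (1 + 1) =
        ((∏ j ∈ Finset.univ.filter (fun j : Fin m => i.succAbove j ∈ Sᶜ), y j) *
          ((W ((0 : Fin (m + 1) → ℂ) ∘ i.succAbove) y)⁻¹) ^ 2) * (x - (0 : Fin (m + 1) → ℂ) i) ^ (-2 : ℤ) := by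
      intro x hx
      have hW : W 0 (i.insertNth x y) =
          (x - (0 : Fin (m + 1) → ℂ) i) * W ((0 : Fin (m + 1) → ℂ) ∘ i.succAbove) y := by
        unfold W
        rw [i.prod_univ_succAbove]
        simp
      have hP : ∏ j ∈ Sᶜ, (i.insertNth x y : Fin (m + 1) → ℂ) j =
          ∏ j ∈ Finset.univ.filter (fun j : Fin m => i.succAbove j ∈ Sᶜ), y j := by
        have h1 := Finset.prod_ite_mem Finset.univ Sᶜ
          (fun j => (i.insertNth x y : Fin (m + 1) → ℂ) j)
        rw [Finset.univ_inter] at h1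
        rw [← h1, i.prod_univ_succAbove, Finset.prod_filter]
        simp [hi]
      rw [hP, hW, mul_inv, mul_pow, zpow_neg]
      simp only [inv_pow]
      norm_cast
      ring
    have h1 := circleIntegral.integral_congr hr.le hcirc
    refine Eq.trans h1 ?_
    rw [circleIntegral.integral_const_mul, circleIntegral.integral_sub_zpow_of_ne (by norm_num),
      mul_zero]
  · refine torusIntegrable_of_continuous (cont_aux (F := fun z => (∏ j ∈ Sᶜ, z j) * 1) hr 1 ?_)
    exact (continuous_tm r _).mul continuous_const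

theorem cf_bound {r : ℝ} (hr : 0 < r) (S : Finset (Fin n)) {F : (Fin n → ℂ) → ℂ} {M : ℝ}
    (hF : ∀ θ, ‖F (torusMap 0 (fun _ => r) θ)‖ ≤ M) : ‖cf r S F‖ ≤ M / r ^ S.card := by
  unfold cf
  have h1 := Lc_bound (p := 0) hr 1 (F := fun z => (∏ i ∈ Sᶜ, z i) * F z)
    (M := r ^ (n - S.card) * M) (by
      intro θ
      rw [norm_mul, norm_prod]
      have h2 : ∀ i : Fin n, ‖torusMap 0 (fun _ => r) θ i‖ = r := fun i => by
        simpa using norm_torusMap_sub (0 : Fin n → ℂ) hr.le θ i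
      rw [Finset.prod_congr rfl fun i _ => h2 i, Finset.prod_const, Finset.card_compl,
        Fintype.card_fin]
      exact mul_le_mul_of_nonneg_left (hF θ) (by positivity))
  refine h1.trans (le_of_eq ?_)
  have hc : S.card ≤ n := by simpa using Finset.card_le_univ S
  rw [pow_one, div_eq_div_iff (by positivity) (by positivity)]
  calc r ^ (n - S.card) * M * r ^ S.card = M * (r ^ (n - S.card) * r ^ S.card) := by ring
    _ = M * r ^ n := by rw [← pow_add, Nat.sub_add_cancel hc]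

end Pool.Agent.H576.CR
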