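import Mathlib
import Pool.Agent.H576.CR.Coef

set_option autoImplicit false

/-!
# The functional given by a squarefree form which is annihilated by quadratic forms
-/

open MeasureTheory Complex Set Function Metric
open scoped Real
open Pool.Agent.H720R2

namespace Pool.Agent.H576.CR

variable {n : ℕ}

/-- a linear form -/
noncomputable def lin (b : Fin n → ℂ) (z : Fin n → ℂ) : ℂ := ∑ i, b i * z i

/-- a quadratic form -/
noncomputable def qf (G : Fin n → Fin n → ℂ) (z : Fin n → ℂ) : ℂ := ∑ i, ∑ j, G i j * z i * z j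

theorem differentiable_lin (b : Fin n → ℂ) : Differentiable ℂ (lin b) := by
  unfold lin; fun_prop

theorem differentiable_qf (G : Fin n → Fin n → ℂ) : Differentiable ℂ (qf G) := by
  unfold qf; fun_prop

theorem cont_of_diff {r : ℝ} (hr : 0 < r) {U : Set (Fin n → ℂ)}
    (hrU : Metric.closedBall 0 r ⊆ U) {F : (Fin n → ℂ) → ℂ} (hF : DifferentiableOn ℂ F U) :
    Continuous fun θ => F (torusMap 0 (fun _ => r) θ) :=
  hF.continuousOn.comp_continuous (continuous_torusMap 0 r) fun θ =>
    hrU (torusMap_mem_closedBall 0 hr.le θ)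

theorem cf_lin_mul {r : ℝ} (hr : 0 < r) {U : Set (Fin n → ℂ)} (hU : IsOpen U)
    (hrU : Metric.closedBall 0 r ⊆ U) {F : (Fin n → ℂ) → ℂ} (hF : DifferentiableOn ℂ F U)
    (b : Fin n → ℂ) (S : Finset (Fin n)) :
    cf r S (fun z => lin b z * F z) = ∑ i ∈ S, b i * cf r (S.erase i) F := by
  have h1 : (fun z => lin b z * F z) = fun z => ∑ i, b i * (z i * F z) := by
    funext z
    unfold lin
    rw [Finset.sum_mul]
    exact Finset.sum_congr rfl fun i _ => by ring
  have hd : ∀ i : Fin n, DifferentiableOn ℂ (fun z : Fin n → ℂ => z i * F z) U := fun i => by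
    have : Differentiable ℂ fun z : Fin n → ℂ => z i := by fun_prop
    exact this.differentiableOn.mul hF
  rw [h1, cf_sum hr S Finset.univ fun i _ => continuous_const.mul (cont_of_diff hr hrU (hd i))]
  rw [← Finset.sum_subset (Finset.subset_univ S)]
  · refine Finset.sum_congr rfl fun i hi => ?_
    rw [cf_const_mul, cf_mul_mem hi]
  · intro i _ hi
    rw [cf_const_mul, cf_mul_not_mem hr hi hU hrU hF, mul_zero]

theorem cf_lin_pow_mul_eq_zero {r : ℝ} (hr : 0 < r) {U : Set (Fin n → ℂ)} (hU : IsOpen U)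
    (hrU : Metric.closedBall 0 r ⊆ U) {F : (Fin n → ℂ) → ℂ} (hF : DifferentiableOn ℂ F U)
    (b : Fin n → ℂ) (j : ℕ) : ∀ S : Finset (Fin n), S.card < j →
    cf r S (fun z => lin b z ^ j * F z) = 0 := by
  induction j with
  | zero => intro S hS; omega
  | succ j ih =>
    intro S hS
    have h1 : (fun z => lin b z ^ (j + 1) * F z) = fun z => lin b z * (lin b z ^ j * F z) := by
      funext z; ring
    have hd : DifferentiableOn ℂ (fun z => lin b z ^ j * F z) U :=
      ((differentiable_lin b).pow j).differentiableOn.mul hF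
    rw [h1, cf_lin_mul hr hU hrU hd]
    refine Finset.sum_eq_zero fun i hi => ?_
    rw [ih, mul_zero]
    rw [Finset.card_erase_of_mem hi]
    have := Finset.card_pos.2 ⟨i, hi⟩
    omega

theorem cf_lin_pow {r : ℝ} (hr : 0 < r) (b : Fin n → ℂ) (j : ℕ) : ∀ S : Finset (Fin n),
    cf r S (fun z => lin b z ^ j) = if S.card = j then (j.factorial : ℂ) * ∏ i ∈ S, b i else 0 := by
  induction j with
  | zero =>
    intro S
    simp only [pow_zero]
    by_cases hS : S = ∅
    · subst hS
      rw [cf_empty_one hr]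
      simp
    · have h1 := Finset.nonempty_iff_ne_empty.2 hS
      rw [cf_one_eq_zero hr h1, if_neg]
      rwa [Finset.card_eq_zero]
  | succ j ih =>
    intro S
    have h1 : (fun z => lin b z ^ (j + 1)) = fun z => lin b z * (lin b z ^ j) := by
      funext z; ring
    have hd : DifferentiableOn ℂ (fun z => lin b z ^ j) univ :=
      ((differentiable_lin b).pow j).differentiableOn
    rw [h1, cf_lin_mul hr isOpen_univ (subset_univ _) hd]
    by_cases hS : S.card = j + 1
    · rw [if_pos hS]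
      have h2 : ∀ i ∈ S, b i * cf r (S.erase i) (fun z => lin b z ^ j) =
          (j.factorial : ℂ) * ∏ i ∈ S, b i := by
        intro i hi
        have h3 := ih (S.erase i)
        rw [if_pos (by rw [Finset.card_erase_of_mem hi, hS]; rfl)] at h3
        rw [h3, ← Finset.mul_prod_erase S b hi]
        ring
      rw [Finset.sum_congr rfl h2, Finset.sum_const, hS, Nat.factorial_succ, nsmul_eq_mul]
      push_cast
      ring
    · rw [if_neg hS]
      refine Finset.sum_eq_zero fun i hi => ?_
      have h3 := ih (S.erase i)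
      rw [if_neg] at h3
      · rw [h3, mul_zero]
      · rw [Finset.card_erase_of_mem hi]
        have := Finset.card_pos.2 ⟨i, hi⟩
        omega

theorem cf_qf_mul {r : ℝ} (hr : 0 < r) {U : Set (Fin n → ℂ)} (hU : IsOpen U)
    (hrU : Metric.closedBall 0 r ⊆ U) {F : (Fin n → ℂ) → ℂ} (hF : DifferentiableOn ℂ F U)
    (G : Fin n → Fin n → ℂ) (S : Finset (Fin n)) :
    cf r S (fun z => qf G z * F z) = ∑ i, ∑ j, if i ∈ S ∧ j ∈ S ∧ i ≠ j then
      G i j * cf r ((S.erase i).erase j) F else 0 := by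
  have h1 : (fun z => qf G z * F z) = fun z => ∑ i, ∑ j, G i j * (z i * (z j * F z)) := by
    funext z
    unfold qf
    simp only [Finset.sum_mul]
    exact Finset.sum_congr rfl fun i _ => Finset.sum_congr rfl fun j _ => by ring
  have hd : ∀ {H : (Fin n → ℂ) → ℂ} (i : Fin n), DifferentiableOn ℂ H U →
      DifferentiableOn ℂ (fun z : Fin n → ℂ => z i * H z) U := fun i hH => by
    have : Differentiable ℂ fun z : Fin n → ℂ => z i := by fun_prop
    exact this.differentiableOn.mul hH
  have hc : ∀ i j : Fin n, Continuous fun θ => G i j * (torusMap 0 (fun _ => r) θ i *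
      (torusMap 0 (fun _ => r) θ j * F (torusMap 0 (fun _ => r) θ))) := fun i j =>
    continuous_const.mul (cont_of_diff hr hrU (hd i (hd j hF)))
  rw [h1, cf_sum hr S Finset.univ (F := fun i z => ∑ j, G i j * (z i * (z j * F z)))
    fun i _ => continuous_finsetSum _ fun j _ => hc i j]
  refine Finset.sum_congr rfl fun i _ => ?_
  rw [cf_sum hr S Finset.univ (F := fun j z => G i j * (z i * (z j * F z)))
    fun j _ => hc i j]
  refine Finset.sum_congr rfl fun j _ => ?_
  rw [cf_const_mul]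
  by_cases hi : i ∈ S
  · rw [cf_mul_mem hi]
    by_cases hj : j ∈ S.erase i
    · rw [cf_mul_mem hj, if_pos]
      rw [Finset.mem_erase] at hj
      exact ⟨hi, hj.2, fun h => hj.1 h.symm⟩
    · rw [cf_mul_not_mem hr hj hU hrU hF, mul_zero, if_neg]
      rintro ⟨-, h2, h3⟩
      exact hj (Finset.mem_erase.2 ⟨fun h => h3 h.symm, h2⟩)
  · rw [cf_mul_not_mem hr hi hU hrU (hd j hF), mul_zero, if_neg]
    rintro ⟨h2, -⟩
    exact hi h2

/-- the functional with the coefficients `Ψ` -/
noncomputable def lam (r : ℝ) (Ψ : Finset (Fin n) → ℂ) (F : (Fin n → ℂ) → ℂ) : ℂ :=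
  ∑ S, Ψ S * cf r S F

theorem lam_add {r : ℝ} (hr : 0 < r) (Ψ : Finset (Fin n) → ℂ) {F G : (Fin n → ℂ) → ℂ}
    (hF : Continuous fun θ => F (torusMap 0 (fun _ => r) θ))
    (hG : Continuous fun θ => G (torusMap 0 (fun _ => r) θ)) :
    lam r Ψ (fun z => F z + G z) = lam r Ψ F + lam r Ψ G := by
  unfold lam
  rw [← Finset.sum_add_distrib]
  refine Finset.sum_congr rfl fun S _ => ?_
  rw [cf_add hr S hF hG, mul_add]

theorem lam_const_mul {r : ℝ} (Ψ : Finset (Fin n) → ℂ) (a : ℂ) (F : (Fin n → ℂ) → ℂ) :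
    lam r Ψ (fun z => a * F z) = a * lam r Ψ F := by
  unfold lam
  rw [Finset.mul_sum]
  refine Finset.sum_congr rfl fun S _ => ?_
  rw [cf_const_mul]
  ring

theorem lam_sum {ι : Type*} {r : ℝ} (hr : 0 < r) (Ψ : Finset (Fin n) → ℂ) (s : Finset ι)
    {F : ι → (Fin n → ℂ) → ℂ}
    (hF : ∀ i ∈ s, Continuous fun θ => F i (torusMap 0 (fun _ => r) θ)) :
    lam r Ψ (fun z => ∑ i ∈ s, F i z) = ∑ i ∈ s, lam r Ψ (F i) := by
  unfold lam
  rw [Finset.sum_comm]
  refine Finset.sum_congr rfl fun S _ => ?_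
  rw [cf_sum hr S s hF, Finset.mul_sum]

theorem lam_congr {r : ℝ} (hr : 0 < r) (Ψ : Finset (Fin n) → ℂ) {F G : (Fin n → ℂ) → ℂ}
    (h : ∀ θ, F (torusMap 0 (fun _ => r) θ) = G (torusMap 0 (fun _ => r) θ)) :
    lam r Ψ F = lam r Ψ G := by
  unfold lam
  exact Finset.sum_congr rfl fun S _ => by rw [cf_congr hr S h]

theorem lam_qf_mul {r : ℝ} (hr : 0 < r) {U : Set (Fin n → ℂ)} (hU : IsOpen U)
    (hrU : Metric.closedBall 0 r ⊆ U) {F : (Fin n → ℂ) → ℂ} (hF : DifferentiableOn ℂ F U)
    (G : Fin n → Fin n → ℂ) (Ψ : Finset (Fin n) → ℂ) :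
    lam r Ψ (fun z => qf G z * F z) = ∑ T, ann G Ψ T * cf r T F := by
  unfold lam ann
  have h1 : ∀ S, Ψ S * cf r S (fun z => qf G z * F z) =
      ∑ i, ∑ j, if i ∈ S ∧ j ∈ S ∧ i ≠ j then
        G i j * Ψ S * cf r ((S.erase i).erase j) F else 0 := by
    intro S
    rw [cf_qf_mul hr hU hrU hF, Finset.mul_sum]
    refine Finset.sum_congr rfl fun i _ => ?_
    rw [Finset.mul_sum]
    refine Finset.sum_congr rfl fun j _ => ?_
    split_ifs
    · ring
    · ring
  have h2 : ∀ T, (∑ i, ∑ j, if i ∉ T ∧ j ∉ T ∧ i ≠ j then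
      G i j * Ψ (insert i (insert j T)) else 0) * cf r T F =
      ∑ i, ∑ j, if i ∉ T ∧ j ∉ T ∧ i ≠ j then
        G i j * Ψ (insert i (insert j T)) * cf r T F else 0 := by
    intro T
    rw [Finset.sum_mul]
    refine Finset.sum_congr rfl fun i _ => ?_
    rw [Finset.sum_mul]
    refine Finset.sum_congr rfl fun j _ => ?_
    split_ifs
    · ring
    · ring
  rw [Finset.sum_congr rfl fun S _ => h1 S, Finset.sum_congr rfl fun T _ => h2 T,
    Finset.sum_comm]
  rw [Finset.sum_comm (s := Finset.univ) (t := Finset.univ)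
    (f := fun T i => ∑ j, if i ∉ T ∧ j ∉ T ∧ i ≠ j then
        G i j * Ψ (insert i (insert j T)) * cf r T F else 0)]
  refine Finset.sum_congr rfl fun i _ => ?_
  rw [Finset.sum_comm]
  rw [Finset.sum_comm (s := Finset.univ) (t := Finset.univ)
    (f := fun T j => if i ∉ T ∧ j ∉ T ∧ i ≠ j then
        G i j * Ψ (insert i (insert j T)) * cf r T F else 0)]
  refine Finset.sum_congr rfl fun j _ => ?_
  rw [← Finset.sum_filter, ← Finset.sum_filter]
  refine Finset.sum_nbij' (fun S => (S.erase i).erase j) (fun T => insert i (insert j T))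
    ?_ ?_ ?_ ?_ ?_
  · intro S hS
    simp only [Finset.mem_filter, Finset.mem_univ, true_and] at hS ⊢
    refine ⟨?_, ?_, hS.2.2⟩
    · simp
    · simp
  · intro T hT
    simp only [Finset.mem_filter, Finset.mem_univ, true_and] at hT ⊢
    refine ⟨?_, ?_, hT.2.2⟩
    · simp
    · simp
  · intro S hS
    simp only [Finset.mem_filter, Finset.mem_univ, true_and] at hS
    have h3 : j ∈ S.erase i := Finset.mem_erase.2 ⟨fun h => hS.2.2 h.symm, hS.2.1⟩
    rw [Finset.insert_erase h3, Finset.insert_erase hS.1]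
  · intro T hT
    simp only [Finset.mem_filter, Finset.mem_univ, true_and] at hT
    have h3 : i ∉ insert j T := by
      rw [Finset.mem_insert]
      rintro (h | h)
      · exact hT.2.2 h
      · exact hT.1 h
    rw [Finset.erase_insert h3, Finset.erase_insert hT.2.1]
  · intro S hS
    simp only [Finset.mem_filter, Finset.mem_univ, true_and] at hS
    have h3 : j ∈ S.erase i := Finset.mem_erase.2 ⟨fun h => hS.2.2 h.symm, hS.2.1⟩
    rw [Finset.insert_erase h3, Finset.insert_erase hS.1]

end Pool.Agent.H576.CR
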