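import Mathlib
import Pool.Agent.H576.CR.Stm

set_option autoImplicit false

/-!
# A sign vector at which a squarefree form is large
-/

open Finset

namespace Pool.Agent.H576.CR

variable {n : ℕ}

theorem sg_sq (b : Bool) : sg b * sg b = 1 := by cases b <;> simp [sg]

theorem sum_sg : ∑ b : Bool, sg b = 0 := by simp [sg]

theorem orth (S T : Finset (Fin n)) :
    ∑ e : Fin n → Bool, (∏ i ∈ S, sg (e i)) * ∏ i ∈ T, sg (e i) = if S = T then 2 ^ n else 0 := by
  have h1 : ∀ e : Fin n → Bool, (∏ i ∈ S, sg (e i)) * ∏ i ∈ T, sg (e i) =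
      ∏ i, ((if i ∈ S then sg (e i) else 1) * (if i ∈ T then sg (e i) else 1)) := by
    intro e
    rw [Finset.prod_mul_distrib]
    congr 1
    · rw [Finset.prod_ite_mem, Finset.univ_inter]
    · rw [Finset.prod_ite_mem, Finset.univ_inter]
  rw [Finset.sum_congr rfl fun e _ => h1 e]
  have h2 := Finset.prod_univ_sum (fun _ : Fin n => (Finset.univ : Finset Bool))
    (fun i b => (if i ∈ S then sg b else 1) * (if i ∈ T then sg b else 1))
  rw [Fintype.piFinset_univ] at h2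
  rw [← h2]
  split_ifs with h
  · subst h
    have h3 : ∀ i : Fin n, ∑ b : Bool, (if i ∈ S then sg b else 1) * (if i ∈ S then sg b else 1) = 2 := by
      intro i
      by_cases hi : i ∈ S
      · simp [hi, sg]; norm_num
      · simp [hi]
    rw [Finset.prod_congr rfl fun i _ => h3 i]
    simp
  · have h3 : ∃ i, ¬ (i ∈ S ↔ i ∈ T) := by
      by_contra hcon
      push Not at hcon
      exact h (Finset.ext hcon)
    obtain ⟨i, hi⟩ := h3
    refine Finset.prod_eq_zero (Finset.mem_univ i) ?_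
    by_cases h4 : i ∈ S
    · have h5 : i ∉ T := fun h6 => hi ⟨fun _ => h6, fun _ => h4⟩
      simp [h4, h5, sg]
    · have h5 : i ∈ T := by
        by_contra h6
        exact hi ⟨fun h => absurd h h4, fun h => absurd h h6⟩
      simp [h4, h5, sg]

/-- a sign vector at which a squarefree form is large -/
theorem exists_sign (Ψ : Finset (Fin n) → ℂ) (S₀ : Finset (Fin n)) :
    ∃ e : Fin n → Bool, ‖Ψ S₀‖ ≤ ‖∑ S, Ψ S * ((∏ i ∈ S, sg (e i) : ℝ) : ℂ)‖ := by
  by_contra hcon
  push Not at hcon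
  have h1 : ∑ e : Fin n → Bool, ((∏ i ∈ S₀, sg (e i) : ℝ) : ℂ) *
      ∑ S, Ψ S * ((∏ i ∈ S, sg (e i) : ℝ) : ℂ) = 2 ^ n * Ψ S₀ := by
    simp only [Finset.mul_sum]
    rw [Finset.sum_comm]
    have h2 : ∀ S, ∑ e : Fin n → Bool, ((∏ i ∈ S₀, sg (e i) : ℝ) : ℂ) *
        (Ψ S * ((∏ i ∈ S, sg (e i) : ℝ) : ℂ)) = Ψ S * ((if S₀ = S then (2 : ℝ) ^ n else 0 : ℝ) : ℂ) := by
      intro S
      rw [← orth S₀ S]
      push_cast
      rw [Finset.mul_sum]
      exact Finset.sum_congr rfl fun e _ => by ring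
    rw [Finset.sum_congr rfl fun S _ => h2 S, Finset.sum_eq_single S₀]
    · simp
      ring
    · intro S _ hS
      rw [if_neg (fun h => hS h.symm)]
      simp
    · intro h
      exact absurd (Finset.mem_univ _) h
  have h3 : ‖∑ e : Fin n → Bool, ((∏ i ∈ S₀, sg (e i) : ℝ) : ℂ) *
      ∑ S, Ψ S * ((∏ i ∈ S, sg (e i) : ℝ) : ℂ)‖ < 2 ^ n * ‖Ψ S₀‖ := by
    calc _ ≤ ∑ e : Fin n → Bool, ‖((∏ i ∈ S₀, sg (e i) : ℝ) : ℂ) *
          ∑ S, Ψ S * ((∏ i ∈ S, sg (e i) : ℝ) : ℂ)‖ := norm_sum_le _ _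
      _ < ∑ _e : Fin n → Bool, ‖Ψ S₀‖ := by
          refine Finset.sum_lt_sum_of_nonempty Finset.univ_nonempty fun e _ => ?_
          rw [norm_mul]
          have h4 : ‖((∏ i ∈ S₀, sg (e i) : ℝ) : ℂ)‖ = 1 := by
            rw [Complex.norm_real, norm_prod]
            refine Finset.prod_eq_one fun i _ => ?_
            cases e i <;> simp [sg]
          rw [h4, one_mul]
          exact hcon e
      _ = _ := by simp
  rw [h1, norm_mul] at h3
  simp at h3

end Pool.Agent.H576.CR
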