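import Mathlib
import Pool.Agent.H576.CR.Fun
import Pool.Agent.H576.CR.Sign

set_option autoImplicit false

/-!
# The lower bound for the solutions
-/

open MeasureTheory Complex Set Function Metric
open scoped Real
open Pool.Agent.H720R2

namespace Pool.Agent.H576.CR

variable {n : ℕ}

/-- the unit ball -/
def Bn (n : ℕ) : Set (Fin n → ℂ) := {z | ∑ i, ‖z i‖ ^ 2 < 1}

theorem isOpen_Bn (n : ℕ) : IsOpen (Bn n) :=
  isOpen_lt (by fun_prop) continuous_const

theorem closedBall_subset_Bn {r : ℝ} (hr : 0 ≤ r) (h : n * r ^ 2 < 1) :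
    Metric.closedBall (0 : Fin n → ℂ) r ⊆ Bn n := by
  intro z hz
  rw [Metric.mem_closedBall, dist_pi_le_iff hr] at hz
  have h1 : ∀ i, ‖z i‖ ^ 2 ≤ r ^ 2 := by
    intro i
    have := hz i
    rw [Pi.zero_apply, dist_zero_right] at this
    exact pow_le_pow_left₀ (norm_nonneg _) this 2
  show ∑ i, ‖z i‖ ^ 2 < 1
  calc ∑ i, ‖z i‖ ^ 2 ≤ ∑ _i : Fin n, r ^ 2 := Finset.sum_le_sum fun i _ => h1 i
    _ = n * r ^ 2 := by simp
    _ < 1 := h

theorem lam_lin_pow_mul_eq_zero {r : ℝ} (hr : 0 < r) {U : Set (Fin n → ℂ)} (hU : IsOpen U)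
    (hrU : Metric.closedBall 0 r ⊆ U) {F : (Fin n → ℂ) → ℂ} (hF : DifferentiableOn ℂ F U)
    (b : Fin n → ℂ) {d j : ℕ} (hdj : d < j) {Ψ : Finset (Fin n) → ℂ}
    (hΨ : ∀ S, S.card ≠ d → Ψ S = 0) : lam r Ψ (fun z => lin b z ^ j * F z) = 0 := by
  unfold lam
  refine Finset.sum_eq_zero fun S _ => ?_
  by_cases hS : S.card = d
  · rw [cf_lin_pow_mul_eq_zero hr hU hrU hF b j S (by omega), mul_zero]
  · rw [hΨ S hS, zero_mul]

theorem lam_lin_pow {r : ℝ} (hr : 0 < r) (b : Fin n → ℂ) {d : ℕ} (j : ℕ)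
    {Ψ : Finset (Fin n) → ℂ} (hΨ : ∀ S, S.card ≠ d → Ψ S = 0) :
    lam r Ψ (fun z => lin b z ^ j) =
      if j = d then (d.factorial : ℂ) * ∑ S, Ψ S * ∏ i ∈ S, b i else 0 := by
  unfold lam
  split_ifs with h
  · subst h
    rw [Finset.mul_sum]
    refine Finset.sum_congr rfl fun S _ => ?_
    rw [cf_lin_pow hr]
    by_cases hS : S.card = j
    · rw [if_pos hS]; ring
    · rw [if_neg hS, hΨ S hS]; ring
  · refine Finset.sum_eq_zero fun S _ => ?_
    rw [cf_lin_pow hr]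
    by_cases hS : S.card = j
    · rw [hΨ S (by omega), zero_mul]
    · rw [if_neg hS, mul_zero]

theorem lower {N : ℕ} (G : Fin N → Fin n → Fin n → ℂ) {d : ℕ} {Ψ : Finset (Fin n) → ℂ}
    (hΨ : ∀ S, S.card ≠ d → Ψ S = 0) {S₀ : Finset (Fin n)} (hS₀ : Ψ S₀ ≠ 0)
    (hmax : ∀ S, ‖Ψ S‖ ≤ ‖Ψ S₀‖) (hann : ∀ k T, ann (G k) Ψ T = 0) {e : Fin n → Bool}
    (he : ‖Ψ S₀‖ ≤ ‖∑ S, Ψ S * ((∏ i ∈ S, sg (e i) : ℝ) : ℂ)‖) {R t a : ℝ} (hR : 0 < R)
    (ht : 0 < t) (ha : 0 < a) {r : ℝ} (hr : 0 < r) (hrn : n * r ^ 2 < 1)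
    {h : Fin (N + 1) → (Fin n → ℂ) → ℂ} (hh : ∀ j, DifferentiableOn ℂ (h j) (Bn n))
    (hid : ∀ z ∈ Bn n, ((t / 4 : ℝ) - ((1 / (4 * R) : ℝ) : ℂ) * lin (fun i => (a * sg (e i) : ℝ)) z) *
      h 0 z + ∑ k : Fin N, ((1 / (2 * R ^ 2) : ℝ) * qf (G k) z) * h k.succ z = 1)
    {M : ℝ} (hM : ∀ z ∈ Metric.closedBall (0 : Fin n → ℂ) r, ‖h 0 z‖ ≤ M) :
    4 / t * d.factorial * (a * r / (R * t)) ^ d ≤ n.choose d * M := by
  set b : Fin n → ℂ := fun i => (a * sg (e i) : ℝ) with hb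
  have hrU := closedBall_subset_Bn hr.le hrn
  have hU := isOpen_Bn n
  have hdu : ∀ j, DifferentiableOn ℂ (fun z => lin b z ^ j) (Bn n) := fun j =>
    ((differentiable_lin b).pow j).differentiableOn
  have hdh : ∀ j k, DifferentiableOn ℂ (fun z => lin b z ^ j * h k z) (Bn n) := fun j k =>
    (hdu j).mul (hh k)
  set V : ℕ → ℂ := fun j => lam r Ψ (fun z => lin b z ^ j * h 0 z) with hV
  -- the recurrence
  have hrec : ∀ j, lam r Ψ (fun z => lin b z ^ j) = (t / 4 : ℝ) * V j -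
      (1 / (4 * R) : ℝ) * V (j + 1) := by
    intro j
    have h1 : ∀ θ, lin b (torusMap 0 (fun _ => r) θ) ^ j =
        ((t / 4 : ℝ) : ℂ) * (lin b (torusMap 0 (fun _ => r) θ) ^ j * h 0 (torusMap 0 (fun _ => r) θ)) +
        ((((-(1 / (4 * R)) : ℝ) : ℂ) * (lin b (torusMap 0 (fun _ => r) θ) ^ (j + 1) *
          h 0 (torusMap 0 (fun _ => r) θ))) +
        ∑ k : Fin N, ((1 / (2 * R ^ 2) : ℝ) : ℂ) * (qf (G k) (torusMap 0 (fun _ => r) θ) *
          (lin b (torusMap 0 (fun _ => r) θ) ^ j * h k.succ (torusMap 0 (fun _ => r) θ)))) := by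
      intro θ
      have h2 := hid _ (hrU (torusMap_mem_closedBall 0 hr.le θ))
      have h3 := congrArg (fun x => lin b (torusMap 0 (fun _ => r) θ) ^ j * x) h2
      simp only [mul_one] at h3
      refine h3.symm.trans ?_
      rw [mul_add, Finset.mul_sum, ← add_assoc]
      congr 1
      · push_cast; ring
      · exact Finset.sum_congr rfl fun k _ => by ring
    have hc1 : Continuous fun θ => lin b (torusMap 0 (fun _ => r) θ) ^ j *
        h 0 (torusMap 0 (fun _ => r) θ) := cont_of_diff hr hrU (hdh j 0)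
    have hc2 : Continuous fun θ => lin b (torusMap 0 (fun _ => r) θ) ^ (j + 1) *
        h 0 (torusMap 0 (fun _ => r) θ) := cont_of_diff hr hrU (hdh (j + 1) 0)
    have hd3 : ∀ k : Fin N, DifferentiableOn ℂ
        (fun z => qf (G k) z * (lin b z ^ j * h k.succ z)) (Bn n) := fun k =>
      (differentiable_qf (G k)).differentiableOn.mul (hdh j k.succ)
    have hc3 : ∀ k : Fin N, Continuous fun θ => ((1 / (2 * R ^ 2) : ℝ) : ℂ) *
        (qf (G k) (torusMap 0 (fun _ => r) θ) *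
          (lin b (torusMap 0 (fun _ => r) θ) ^ j * h k.succ (torusMap 0 (fun _ => r) θ))) :=
      fun k => continuous_const.mul (cont_of_diff hr hrU (hd3 k))
    rw [lam_congr hr Ψ (F := fun z => lin b z ^ j) (G := fun z =>
      ((t / 4 : ℝ) : ℂ) * (lin b z ^ j * h 0 z) +
        ((((-(1 / (4 * R)) : ℝ) : ℂ) * (lin b z ^ (j + 1) * h 0 z)) +
        ∑ k : Fin N, ((1 / (2 * R ^ 2) : ℝ) : ℂ) * (qf (G k) z *
          (lin b z ^ j * h k.succ z)))) h1]
    rw [lam_add hr Ψ (F := fun z => ((t / 4 : ℝ) : ℂ) * (lin b z ^ j * h 0 z))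
      (G := fun z => ((((-(1 / (4 * R)) : ℝ) : ℂ) * (lin b z ^ (j + 1) * h 0 z)) +
        ∑ k : Fin N, ((1 / (2 * R ^ 2) : ℝ) : ℂ) * (qf (G k) z * (lin b z ^ j * h k.succ z))))
      (continuous_const.mul hc1)
      ((continuous_const.mul hc2).add (continuous_finsetSum _ fun k _ => hc3 k))]
    rw [lam_add hr Ψ (F := fun z => (((-(1 / (4 * R)) : ℝ) : ℂ) * (lin b z ^ (j + 1) * h 0 z)))
      (G := fun z => ∑ k : Fin N, ((1 / (2 * R ^ 2) : ℝ) : ℂ) *
        (qf (G k) z * (lin b z ^ j * h k.succ z)))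
      (continuous_const.mul hc2) (continuous_finsetSum _ fun k _ => hc3 k)]
    rw [lam_sum hr Ψ Finset.univ (F := fun k z => ((1 / (2 * R ^ 2) : ℝ) : ℂ) *
        (qf (G k) z * (lin b z ^ j * h k.succ z))) fun k _ => hc3 k]
    rw [lam_const_mul, lam_const_mul]
    have h4 : ∀ k : Fin N, lam r Ψ (fun z => ((1 / (2 * R ^ 2) : ℝ) : ℂ) *
        (qf (G k) z * (lin b z ^ j * h k.succ z))) = 0 := by
      intro k
      rw [lam_const_mul, lam_qf_mul hr hU hrU (hdh j k.succ)]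
      rw [Finset.sum_eq_zero fun T _ => by rw [hann k T, zero_mul], mul_zero]
    rw [Finset.sum_eq_zero fun k _ => h4 k]
    simp only [hV]
    push_cast
    ring
  have hVd : V (d + 1) = 0 := lam_lin_pow_mul_eq_zero hr hU hrU (hh 0) b (Nat.lt_succ_self d) hΨ
  have hstep : ∀ j, j < d → V (j + 1) = ((R * t : ℝ) : ℂ) * V j := by
    intro j hj
    have h1 := hrec j
    rw [lam_lin_pow hr b j hΨ, if_neg (by omega)] at h1
    have hRc : (R : ℂ) ≠ 0 := by exact_mod_cast hR.ne'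
    have h2 : ((1 / (4 * R) : ℝ) : ℂ) * V (j + 1) = ((t / 4 : ℝ) : ℂ) * V j := by
      linear_combination h1
    have h3 : ((4 * R : ℝ) : ℂ) * (((1 / (4 * R) : ℝ) : ℂ) * V (j + 1)) =
        ((4 * R : ℝ) : ℂ) * (((t / 4 : ℝ) : ℂ) * V j) := by rw [h2]
    have h5 : ((4 * R : ℝ) : ℂ) * ((1 / (4 * R) : ℝ) : ℂ) = 1 := by
      rw [← Complex.ofReal_mul, mul_one_div_cancel (by positivity), Complex.ofReal_one]
    rw [← mul_assoc, h5, one_mul] at h3
    rw [h3]
    push_cast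
    ring
  have hpow : ∀ j, j ≤ d → V j = ((R * t : ℝ) : ℂ) ^ j * V 0 := by
    intro j
    induction j with
    | zero => intro _; simp
    | succ j ih =>
      intro hj
      rw [hstep j (by omega), ih (by omega)]
      ring
  have hfin := hrec d
  rw [lam_lin_pow hr b d hΨ, if_pos rfl, hVd, mul_zero, sub_zero, hpow d le_rfl] at hfin
  -- the value at the sign vector
  have hval : ∑ S, Ψ S * ∏ i ∈ S, b i = (a : ℂ) ^ d *
      ∑ S, Ψ S * ((∏ i ∈ S, sg (e i) : ℝ) : ℂ) := by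
    rw [Finset.mul_sum]
    refine Finset.sum_congr rfl fun S _ => ?_
    by_cases hS : S.card = d
    · simp only [hb]
      push_cast
      rw [Finset.prod_mul_distrib, Finset.prod_const, hS]
      ring
    · rw [hΨ S hS]; ring
  -- the bound for the functional
  have hV0 : ‖V 0‖ ≤ n.choose d * (‖Ψ S₀‖ * (M / r ^ d)) := by
    have h0 : V 0 = ∑ S ∈ Finset.univ.powersetCard d, Ψ S * cf r S (fun z => lin b z ^ 0 * h 0 z) := by
      simp only [hV, lam]
      refine (Finset.sum_subset (Finset.subset_univ _) fun S _ hS => ?_).symm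
      rw [hΨ S, zero_mul]
      intro h5
      exact hS (Finset.mem_powersetCard.2 ⟨Finset.subset_univ _, h5⟩)
    rw [h0]
    refine (norm_sum_le _ _).trans ?_
    have h1 : ∀ S ∈ (Finset.univ : Finset (Fin n)).powersetCard d,
        ‖Ψ S * cf r S (fun z => lin b z ^ 0 * h 0 z)‖ ≤ ‖Ψ S₀‖ * (M / r ^ d) := by
      intro S hS
      rw [norm_mul]
      have h2 := cf_bound hr S (F := fun z => lin b z ^ 0 * h 0 z) (M := M) (by
        intro θ
        simp only [pow_zero, one_mul]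
        exact hM _ (torusMap_mem_closedBall 0 hr.le θ))
      rw [(Finset.mem_powersetCard.1 hS).2] at h2
      exact mul_le_mul (hmax S) h2 (norm_nonneg _) (norm_nonneg _)
    refine (Finset.sum_le_sum h1).trans (le_of_eq ?_)
    rw [Finset.sum_const, Finset.card_powersetCard, Finset.card_univ, Fintype.card_fin,
      nsmul_eq_mul]
  -- conclusion
  have hn1 : ‖(d.factorial : ℂ) * ∑ S, Ψ S * ∏ i ∈ S, b i‖ =
      d.factorial * (a ^ d * ‖∑ S, Ψ S * ((∏ i ∈ S, sg (e i) : ℝ) : ℂ)‖) := by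
    rw [hval, norm_mul, norm_mul, norm_pow, Complex.norm_real, Real.norm_of_nonneg ha.le]
    simp
  have hn2 : ‖((t / 4 : ℝ) : ℂ) * (((R * t : ℝ) : ℂ) ^ d * V 0)‖ = t / 4 * ((R * t) ^ d * ‖V 0‖) := by
    rw [norm_mul, norm_mul, norm_pow, Complex.norm_real, Complex.norm_real,
      Real.norm_of_nonneg (by positivity), Real.norm_of_nonneg (by positivity)]
  rw [hfin] at hn1
  rw [hn2] at hn1
  have hS0 : 0 < ‖Ψ S₀‖ := norm_pos_iff.2 hS₀
  have h6 : d.factorial * (a ^ d * ‖Ψ S₀‖) ≤ t / 4 * ((R * t) ^ d *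
      (n.choose d * (‖Ψ S₀‖ * (M / r ^ d)))) := by
    calc d.factorial * (a ^ d * ‖Ψ S₀‖) ≤
        d.factorial * (a ^ d * ‖∑ S, Ψ S * ((∏ i ∈ S, sg (e i) : ℝ) : ℂ)‖) := by gcongr
      _ = t / 4 * ((R * t) ^ d * ‖V 0‖) := hn1.symm
      _ ≤ _ := by gcongr
  have h7 : d.factorial * a ^ d ≤ t / 4 * ((R * t) ^ d * (n.choose d * (M / r ^ d))) := by
    have : d.factorial * a ^ d * ‖Ψ S₀‖ ≤
        t / 4 * ((R * t) ^ d * (n.choose d * (M / r ^ d))) * ‖Ψ S₀‖ := by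
      calc _ = d.factorial * (a ^ d * ‖Ψ S₀‖) := by ring
        _ ≤ _ := h6
        _ = _ := by ring
    exact le_of_mul_le_mul_right this hS0
  have hRt : 0 < R * t := by positivity
  calc 4 / t * d.factorial * (a * r / (R * t)) ^ d
      = 4 / t * (r / (R * t)) ^ d * (d.factorial * a ^ d) := by
        rw [mul_div_assoc, mul_pow]; ring
    _ ≤ 4 / t * (r / (R * t)) ^ d * (t / 4 * ((R * t) ^ d * (n.choose d * (M / r ^ d)))) := by
        gcongr
    _ = n.choose d * M := by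
        rw [div_pow]
        field_simp

end Pool.Agent.H576.CR
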