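import Mathlib
import Pool.Agent.H576.CR.Low

set_option autoImplicit false
set_option maxHeartbeats 1000000

/-!
# Assembly: the corona constants of the unit balls grow exponentially
-/

open MvPolynomial

namespace Pool.Agent.H576.CR

/-- the linear function of the data -/
noncomputable def f0 {n : ℕ} (t R : ℝ) (b : Fin n → ℂ) : MvPolynomial (Fin n) ℂ :=
  C ((t / 4 : ℝ) : ℂ) - ∑ i, C (((1 / (4 * R) : ℝ) : ℂ) * b i) * X i

/-- the quadratic functions of the data -/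
noncomputable def f2 {n : ℕ} (R : ℝ) (G : Fin n → Fin n → ℂ) : MvPolynomial (Fin n) ℂ :=
  ∑ i, ∑ j, C (((1 / (2 * R ^ 2) : ℝ) : ℂ) * G i j) * X i * X j

theorem eval_f0 {n : ℕ} (t R : ℝ) (b z : Fin n → ℂ) :
    eval z (f0 t R b) = ((t / 4 : ℝ) : ℂ) - ((1 / (4 * R) : ℝ) : ℂ) * lin b z := by
  unfold f0 lin
  rw [map_sub, eval_C, map_sum, Finset.mul_sum]
  congr 1
  refine Finset.sum_congr rfl fun i _ => ?_
  rw [map_mul, eval_C, eval_X]
  ring

theorem eval_f2 {n : ℕ} (R : ℝ) (G : Fin n → Fin n → ℂ) (z : Fin n → ℂ) :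
    eval z (f2 R G) = ((1 / (2 * R ^ 2) : ℝ) : ℂ) * qf G z := by
  unfold f2 qf
  rw [map_sum, Finset.mul_sum]
  refine Finset.sum_congr rfl fun i _ => ?_
  rw [map_sum, Finset.mul_sum]
  refine Finset.sum_congr rfl fun j _ => ?_
  rw [map_mul, map_mul, eval_C, eval_X, eval_X]
  ring

theorem totalDegree_f0 {n : ℕ} (t R : ℝ) (b : Fin n → ℂ) : (f0 t R b).totalDegree ≤ 2 := by
  unfold f0
  refine (totalDegree_sub _ _).trans (max_le ?_ ?_)
  · rw [totalDegree_C]; norm_num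
  · refine totalDegree_finsetSum_le fun i _ => ?_
    refine (totalDegree_mul _ _).trans ?_
    rw [totalDegree_C, totalDegree_X]; norm_num

theorem totalDegree_f2 {n : ℕ} (R : ℝ) (G : Fin n → Fin n → ℂ) : (f2 R G).totalDegree ≤ 2 := by
  unfold f2
  refine totalDegree_finsetSum_le fun i _ => totalDegree_finsetSum_le fun j _ => ?_
  refine (totalDegree_mul _ _).trans ?_
  have h1 := totalDegree_mul (C (((1 / (2 * R ^ 2) : ℝ) : ℂ) * G i j)) (X i : MvPolynomial (Fin n) ℂ)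
  rw [totalDegree_C, totalDegree_X] at h1
  rw [totalDegree_X]
  omega

theorem norm_lin_sq_le {n : ℕ} (b z : Fin n → ℂ) : ‖lin b z‖ ^ 2 ≤ nsq b * nsq z := by
  unfold lin nsq
  have h1 : ‖∑ i, b i * z i‖ ≤ ∑ i, ‖b i‖ * ‖z i‖ :=
    (norm_sum_le _ _).trans (le_of_eq (Finset.sum_congr rfl fun i _ => norm_mul _ _))
  calc ‖∑ i, b i * z i‖ ^ 2 ≤ (∑ i, ‖b i‖ * ‖z i‖) ^ 2 := by
        exact pow_le_pow_left₀ (norm_nonneg _) h1 2
    _ ≤ _ := Finset.sum_mul_sq_le_sq_mul_sq _ _ _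

theorem factorial_ge (d : ℕ) : ((d : ℝ) / Real.exp 1) ^ d ≤ d.factorial := by
  have h1 := Real.pow_div_factorial_le_exp (d : ℝ) (Nat.cast_nonneg d) d
  have h2 : (0 : ℝ) < d.factorial := by exact_mod_cast Nat.factorial_pos d
  rw [div_le_iff₀ h2] at h1
  rw [div_pow, div_le_iff₀ (by positivity), ← Real.exp_nat_mul, mul_one]
  linarith

/-- the main estimate for given data -/
theorem fin_est {n d : ℕ} (hn : 1 ≤ n) {γ κ₁ R t c δ M : ℝ} (hγ : 0 < γ)
    (hd : γ * n ≤ d) (hκ : κ₁ = (γ / (2 * Real.exp 1)) ^ 2 / 2) (hR : 0 < R) (ht : 0 < t) (ht1 : t ≤ 1)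
    (hc : 0 < c) (hδ : 0 < δ) (hcδ : 1 ≤ c / (R ^ 2 * δ))
    (hcγ : c ≤ γ / 2) (hct : c / (R ^ 2 * δ) ≤ (κ₁ / (R * t)) ^ 2)
    (hM : M = (c / (R ^ 2 * δ)) ^ (c * n))
    (h : 4 / t * d.factorial * ((1 / Real.sqrt n) * (1 / Real.sqrt (n + 1) / 2) / (R * t)) ^ d ≤
      n.choose d * M) : False := by
  have hn0 : (0 : ℝ) < n := by exact_mod_cast hn
  have hf : (0 : ℝ) < d.factorial := by exact_mod_cast Nat.factorial_pos d
  have hMpos : 0 < M := by rw [hM]; positivity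
  have hch : (n.choose d : ℝ) ≤ n ^ d / d.factorial := Nat.choose_le_pow_div d n
  have hRt : 0 < R * t := by positivity
  -- the base
  have hbase : κ₁ / (R * t) ≤ ((d : ℝ) / Real.exp 1) ^ 2 / n *
      ((1 / Real.sqrt n) * (1 / Real.sqrt (n + 1) / 2) / (R * t)) := by
    have h1 : (1 : ℝ) / (n + 1) ≤ (1 / Real.sqrt n) * (1 / Real.sqrt (n + 1)) := by
      rw [div_mul_div_comm, one_mul, ← Real.sqrt_mul (by positivity)]
      refine one_div_le_one_div_of_le (Real.sqrt_pos.2 (by positivity)) ?_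
      rw [Real.sqrt_le_left (by positivity)]
      nlinarith
    have h2 : κ₁ ≤ ((d : ℝ) / Real.exp 1) ^ 2 / n * (1 / (n + 1) / 2) := by
      rw [hκ, ← mul_div_assoc]
      refine div_le_div_of_nonneg_right ?_ (by norm_num)
      have h3 : γ / (2 * Real.exp 1) ≤ (d : ℝ) / Real.exp 1 / (n + 1) := by
        rw [div_div, div_le_div_iff₀ (by positivity) (by positivity)]
        have h4 : γ * (n + 1) ≤ 2 * d := by
          have : (1 : ℝ) ≤ n := by exact_mod_cast hn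
          nlinarith
        nlinarith [Real.exp_pos 1]
      calc (γ / (2 * Real.exp 1)) ^ 2 ≤ ((d : ℝ) / Real.exp 1 / (n + 1)) ^ 2 :=
            pow_le_pow_left₀ (by positivity) h3 2
        _ = ((d : ℝ) / Real.exp 1) ^ 2 / (n + 1) * (1 / (n + 1)) := by
            rw [div_pow ((d : ℝ) / Real.exp 1), div_mul_div_comm, mul_one, sq ((n : ℝ) + 1)]
        _ ≤ ((d : ℝ) / Real.exp 1) ^ 2 / n * (1 / (n + 1)) := by
            gcongr
            linarith
    calc κ₁ / (R * t) ≤ (((d : ℝ) / Real.exp 1) ^ 2 / n * (1 / (n + 1) / 2)) / (R * t) := by gcongr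
      _ ≤ (((d : ℝ) / Real.exp 1) ^ 2 / n * ((1 / Real.sqrt n) * (1 / Real.sqrt (n + 1)) / 2)) /
          (R * t) := by gcongr
      _ = _ := by ring
  have hκ1 : 0 ≤ κ₁ := by rw [hκ]; positivity
  have h1 : 4 / t * (κ₁ / (R * t)) ^ d ≤ M := by
    have h2 : d.factorial * (d.factorial : ℝ) *
        ((1 / Real.sqrt n) * (1 / Real.sqrt (n + 1) / 2) / (R * t)) ^ d * (4 / t) ≤ n ^ d * M := by
      calc _ = d.factorial * (4 / t * d.factorial *
            ((1 / Real.sqrt n) * (1 / Real.sqrt (n + 1) / 2) / (R * t)) ^ d) := by ring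
        _ ≤ d.factorial * (n.choose d * M) := by gcongr
        _ ≤ d.factorial * ((n ^ d / d.factorial) * M) := by gcongr
        _ = n ^ d * M := by field_simp
    have h3 : (((d : ℝ) / Real.exp 1) ^ 2 / n *
      ((1 / Real.sqrt n) * (1 / Real.sqrt (n + 1) / 2) / (R * t))) ^ d * (4 / t) ≤ M := by
      have h4 : (((d : ℝ) / Real.exp 1) ^ 2 / n *
        ((1 / Real.sqrt n) * (1 / Real.sqrt (n + 1) / 2) / (R * t))) ^ d * (4 / t) * n ^ d ≤
          M * n ^ d := by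
        calc _ = ((d : ℝ) / Real.exp 1) ^ d * ((d : ℝ) / Real.exp 1) ^ d *
              ((1 / Real.sqrt n) * (1 / Real.sqrt (n + 1) / 2) / (R * t)) ^ d * (4 / t) := by
              rw [mul_pow, div_pow _ (n : ℝ), ← pow_mul, mul_comm 2 d, pow_mul, sq]
              field_simp
          _ ≤ d.factorial * (d.factorial : ℝ) *
              ((1 / Real.sqrt n) * (1 / Real.sqrt (n + 1) / 2) / (R * t)) ^ d * (4 / t) := by
              have := factorial_ge d
              gcongr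
          _ ≤ n ^ d * M := h2
          _ = M * n ^ d := by ring
      exact le_of_mul_le_mul_right h4 (by positivity)
    calc 4 / t * (κ₁ / (R * t)) ^ d = (κ₁ / (R * t)) ^ d * (4 / t) := by ring
      _ ≤ _ := by gcongr
      _ ≤ M := h3
  -- comparison of the powers
  have h2 : M ≤ (κ₁ / (R * t)) ^ d := by
    have hX : 0 < c / (R ^ 2 * δ) := by positivity
    have h3 : c * n ≤ (d : ℝ) / 2 := by
      have : c * n ≤ γ / 2 * n := by gcongr
      nlinarith
    calc M = (c / (R ^ 2 * δ)) ^ (c * n) := hM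
      _ ≤ (c / (R ^ 2 * δ)) ^ ((d : ℝ) / 2) := Real.rpow_le_rpow_of_exponent_le hcδ h3
      _ ≤ ((κ₁ / (R * t)) ^ 2) ^ ((d : ℝ) / 2) := Real.rpow_le_rpow hX.le hct (by positivity)
      _ = (κ₁ / (R * t)) ^ d := by
          rw [← Real.rpow_natCast (κ₁ / (R * t)) 2, ← Real.rpow_mul (by positivity),
            ← Real.rpow_natCast]
          congr 1
          push_cast
          ring
  have h3 : 4 ≤ 4 / t := by
    rw [le_div_iff₀ ht]; linarith
  have h4 : 0 < (κ₁ / (R * t)) ^ d := lt_of_lt_of_le hMpos h2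
  nlinarith [mul_le_mul_of_nonneg_right h3 h4.le]

theorem core (h1 : S_FLAT) (h2 : S_ALG) (h3 : S_NUM) :
    ∃ (c : ℝ) (C n₀ : ℕ), 0 < c ∧ ∀ n ≥ n₀, ∀ R δ : ℝ, 1 ≤ R → 0 < δ → R ^ 2 * δ < c →
      ∃ N ≤ C * n, ∃ f : Fin (N + 1) → MvPolynomial (Fin n) ℂ,
        (∀ j, (f j).totalDegree ≤ 2) ∧
        (∀ z, δ ^ 2 < ∑ j, ‖eval z (f j)‖ ^ 2) ∧
        (∀ z : Fin n → ℂ, ∑ i, ‖z i‖ ^ 2 < R ^ 2 → ∑ j, ‖eval z (f j)‖ ^ 2 ≤ 1) ∧
        ∀ h : Fin (N + 1) → (Fin n → ℂ) → ℂ, (∀ j, DifferentiableOn ℂ (h j) (Bn n)) →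
          (∀ z ∈ Bn n, ∑ j, eval z (f j) * h j z = 1) →
          ∃ z : Fin n → ℂ, nsq z < 1 / 4 ∧ (c / (R ^ 2 * δ)) ^ (c * n) < ‖h 0 z‖ := by
  obtain ⟨C, κ₀, hκ₀, hflat⟩ := h1
  obtain ⟨γ, n₁, hγ, hnum⟩ := h3 C
  set κ : ℝ := min κ₀ 1 with hκdef
  have hκ : 0 < κ := lt_min hκ₀ one_pos
  have hκ1 : κ ≤ 1 := min_le_right _ _
  have hκ' : κ ≤ κ₀ := min_le_left _ _
  set s : ℝ := 9 / Real.sqrt κ with hs
  have hsq : 0 < Real.sqrt κ := Real.sqrt_pos.2 hκ
  have hsq1 : Real.sqrt κ ≤ 1 := Real.sqrt_le_one.2 hκ1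
  have hs0 : 0 < s := by positivity
  have hs9 : 9 ≤ s := by rw [hs, le_div_iff₀ hsq]; nlinarith
  have hs2 : s ^ 2 * κ = 81 := by
    rw [hs, div_pow, Real.sq_sqrt hκ.le]; field_simp; norm_num
  set κ₁ : ℝ := (γ / (2 * Real.exp 1)) ^ 2 / 2 with hκ₁
  have hκ₁0 : 0 < κ₁ := by positivity
  set c : ℝ := min (min (1 / s) (1 / 8)) (min (κ₁ ^ 2 / s) (γ / 2)) with hc
  have hc0 : 0 < c := by
    refine lt_min (lt_min (by positivity) (by norm_num)) (lt_min (by positivity) (by positivity))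
  have hc1 : c ≤ 1 / s := (min_le_left _ _).trans (min_le_left _ _)
  have hc2 : c ≤ 1 / 8 := (min_le_left _ _).trans (min_le_right _ _)
  have hc3 : c ≤ κ₁ ^ 2 / s := (min_le_right _ _).trans (min_le_left _ _)
  have hc4 : c ≤ γ / 2 := (min_le_right _ _).trans (min_le_right _ _)
  refine ⟨c, C, max n₁ 1, hc0, ?_⟩
  intro n hn R δ hR hδ hRδ
  have hn1 : 1 ≤ n := le_trans (le_max_right _ _) hn
  have hnn : n₁ ≤ n := le_trans (le_max_left _ _) hn
  have hR0 : 0 < R := by linarith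
  have hR2 : 1 ≤ R ^ 2 := by nlinarith
  have hδc : δ < c := by nlinarith
  have hn0 : (0 : ℝ) < n := by exact_mod_cast hn1
  obtain ⟨N, hN, G, hG⟩ := hflat n
  obtain ⟨L, D, t', ht'0, ht'1, hDL, hLn, hDγ, hineq⟩ := hnum n hnn N hN
  obtain ⟨d, hDd, hdL, Ψ, ⟨S₁, hS₁⟩, hΨ, hann⟩ := h2 n N L D t' ht'0 ht'1 hDL hineq G
  have hdγ : γ * n ≤ d := hDγ.trans (by exact_mod_cast hDd)
  -- the maximal coefficient
  obtain ⟨S₀, -, hS₀⟩ := Finset.exists_max_image (Finset.univ : Finset (Finset (Fin n)))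
    (fun S => ‖Ψ S‖) Finset.univ_nonempty
  have hmax : ∀ S, ‖Ψ S‖ ≤ ‖Ψ S₀‖ := fun S => hS₀ S (Finset.mem_univ S)
  have hΨ0 : Ψ S₀ ≠ 0 := by
    intro h
    have := hmax S₁
    rw [h, norm_zero] at this
    exact hS₁ (norm_le_zero_iff.1 this)
  obtain ⟨e, he⟩ := exists_sign Ψ S₀
  -- the parameters
  set t : ℝ := Real.sqrt (s * δ) with ht
  have ht0 : 0 < t := Real.sqrt_pos.2 (by positivity)
  have ht2 : t ^ 2 = s * δ := Real.sq_sqrt (by positivity)
  have ht1 : t ≤ 1 := by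
    refine Real.sqrt_le_one.2 ?_
    calc s * δ ≤ s * (1 / s) := by
          gcongr
          linarith
      _ = 1 := by field_simp
  set a : ℝ := 1 / Real.sqrt n with ha
  have ha0 : 0 < a := by positivity
  have ha2 : a ^ 2 * n = 1 := by
    rw [ha, div_pow, Real.sq_sqrt hn0.le]; field_simp
  set r : ℝ := 1 / Real.sqrt (n + 1) / 2 with hr
  have hr0 : 0 < r := by positivity
  have hrn4 : n * r ^ 2 < 1 / 4 := by
    rw [hr, div_pow, div_pow, Real.sq_sqrt (by positivity), one_pow, ← mul_div_assoc, mul_one_div]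
    have : (n : ℝ) / (n + 1) < 1 := by
      rw [div_lt_one (by positivity)]
      linarith
    linarith
  have hrn : n * r ^ 2 < 1 := by linarith
  set b : Fin n → ℂ := fun i => ((a * sg (e i) : ℝ) : ℂ) with hb
  have hnb : nsq b = 1 := by
    unfold nsq
    have h5 : ∀ i, ‖b i‖ ^ 2 = a ^ 2 := by
      intro i
      rw [hb]
      simp only
      rw [Complex.norm_real, Real.norm_eq_abs, sq_abs, mul_pow]
      have : sg (e i) ^ 2 = 1 := by rw [sq]; exact sg_sq _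
      rw [this, mul_one]
    rw [Finset.sum_congr rfl fun i _ => h5 i]
    simp only [Finset.sum_const, Finset.card_univ, Fintype.card_fin, nsmul_eq_mul]
    linarith
  have hlin : ∀ z, ‖lin b z‖ ^ 2 ≤ nsq z := fun z => by
    have := norm_lin_sq_le b z
    rwa [hnb, one_mul] at this
  refine ⟨N, hN, Fin.cons (f0 t R b) (fun k => f2 R (G k)), ?_, ?_, ?_, ?_⟩
  · intro j
    refine Fin.cases ?_ (fun k => ?_) j
    · exact totalDegree_f0 t R b
    · exact totalDegree_f2 R (G k)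
  · intro z
    rw [Fin.sum_univ_succ]
    simp only [Fin.cons_zero, Fin.cons_succ]
    have hsum : ∑ k, ‖eval z (f2 R (G k))‖ ^ 2 = 1 / (4 * R ^ 4) * ∑ k, ‖qf (G k) z‖ ^ 2 := by
      rw [Finset.mul_sum]
      refine Finset.sum_congr rfl fun k _ => ?_
      rw [eval_f2, norm_mul, mul_pow, Complex.norm_real, Real.norm_of_nonneg (by positivity)]
      congr 1
      rw [div_pow]; ring
    have hg := (hG z).1
    by_cases hcase : ‖lin b z‖ ≤ R * t / 2
    · have h5 : t / 8 ≤ ‖eval z (f0 t R b)‖ := by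
        rw [eval_f0]
        have h6 : ‖((1 / (4 * R) : ℝ) : ℂ) * lin b z‖ ≤ t / 8 := by
          rw [norm_mul, Complex.norm_real, Real.norm_of_nonneg (by positivity)]
          calc 1 / (4 * R) * ‖lin b z‖ ≤ 1 / (4 * R) * (R * t / 2) := by gcongr
            _ = t / 8 := by field_simp; norm_num
        have h7 : ‖((t / 4 : ℝ) : ℂ)‖ = t / 4 := by
          rw [Complex.norm_real, Real.norm_of_nonneg (by positivity)]
        have h8 := norm_sub_norm_le ((t / 4 : ℝ) : ℂ) (((1 / (4 * R) : ℝ) : ℂ) * lin b z)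
        linarith
      have h6 : δ ^ 2 < (t / 8) ^ 2 := by
        rw [div_pow, ht2]
        have h6 : δ < s / 64 := by linarith
        calc δ ^ 2 = δ * δ := sq δ
          _ < s / 64 * δ := mul_lt_mul_of_pos_right h6 hδ
          _ = s * δ / 8 ^ 2 := by ring
      have h7 : (t / 8) ^ 2 ≤ ‖eval z (f0 t R b)‖ ^ 2 := pow_le_pow_left₀ (by positivity) h5 2
      have h8 : 0 ≤ ∑ k, ‖eval z (f2 R (G k))‖ ^ 2 := Finset.sum_nonneg fun k _ => by positivity
      linarith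
    · push Not at hcase
      have h5 : R ^ 2 * t ^ 2 / 4 < nsq z := by
        refine lt_of_lt_of_le ?_ (hlin z)
        have : (R * t / 2) ^ 2 < ‖lin b z‖ ^ 2 := pow_lt_pow_left₀ hcase (by positivity) two_ne_zero
        calc R ^ 2 * t ^ 2 / 4 = (R * t / 2) ^ 2 := by ring
          _ < _ := this
      have h6 : κ * (R ^ 2 * t ^ 2 / 4) ^ 2 ≤ ∑ k, ‖qf (G k) z‖ ^ 2 := by
        calc κ * (R ^ 2 * t ^ 2 / 4) ^ 2 ≤ κ₀ * nsq z ^ 2 := by gcongr
          _ ≤ _ := hg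
      have h7 : δ ^ 2 < 1 / (4 * R ^ 4) * (κ * (R ^ 2 * t ^ 2 / 4) ^ 2) := by
        rw [ht2]
        have h8 : 1 / (4 * R ^ 4) * (κ * (R ^ 2 * (s * δ) / 4) ^ 2) = s ^ 2 * κ * δ ^ 2 / 64 := by
          field_simp
          ring
        rw [h8, hs2]
        have h9 : 0 < δ ^ 2 := by positivity
        linarith
      have h8 : 1 / (4 * R ^ 4) * (κ * (R ^ 2 * t ^ 2 / 4) ^ 2) ≤
          1 / (4 * R ^ 4) * ∑ k, ‖qf (G k) z‖ ^ 2 := by gcongr
      rw [hsum]
      have h9 : 0 ≤ ‖eval z (f0 t R b)‖ ^ 2 := by positivity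
      linarith
  · intro z hz
    rw [Fin.sum_univ_succ]
    simp only [Fin.cons_zero, Fin.cons_succ]
    have hz' : nsq z < R ^ 2 := hz
    have hz0 : 0 ≤ nsq z := Finset.sum_nonneg fun i _ => by positivity
    have h5 : ‖lin b z‖ ≤ R := by
      have h6 : ‖lin b z‖ ^ 2 ≤ R ^ 2 := (hlin z).trans hz'.le
      exact le_of_sq_le_sq h6 hR0.le
    have h6 : ‖eval z (f0 t R b)‖ ≤ 1 / 2 := by
      rw [eval_f0]
      refine (norm_sub_le _ _).trans ?_
      rw [norm_mul, Complex.norm_real, Complex.norm_real, Real.norm_of_nonneg (by positivity),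
        Real.norm_of_nonneg (by positivity)]
      have : 1 / (4 * R) * ‖lin b z‖ ≤ 1 / (4 * R) * R := by gcongr
      have h7 : 1 / (4 * R) * R = 1 / 4 := by field_simp
      linarith
    have h7 : ‖eval z (f0 t R b)‖ ^ 2 ≤ (1 / 2) ^ 2 := pow_le_pow_left₀ (norm_nonneg _) h6 2
    have h8 : ∑ k, ‖eval z (f2 R (G k))‖ ^ 2 ≤ 1 / 4 := by
      have hsum : ∑ k, ‖eval z (f2 R (G k))‖ ^ 2 = 1 / (4 * R ^ 4) * ∑ k, ‖qf (G k) z‖ ^ 2 := by
        rw [Finset.mul_sum]
        refine Finset.sum_congr rfl fun k _ => ?_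
        rw [eval_f2, norm_mul, mul_pow, Complex.norm_real, Real.norm_of_nonneg (by positivity)]
        congr 1
        rw [div_pow]; ring
      rw [hsum]
      have hg : ∑ k, ‖qf (G k) z‖ ^ 2 ≤ nsq z ^ 2 := (hG z).2
      calc 1 / (4 * R ^ 4) * ∑ k, ‖qf (G k) z‖ ^ 2 ≤ 1 / (4 * R ^ 4) * (R ^ 2) ^ 2 := by
            gcongr
            exact hg.trans (pow_le_pow_left₀ hz0 hz'.le 2)
        _ = 1 / 4 := by field_simp
    linarith
  · intro h hh hid
    by_contra hcon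
    push Not at hcon
    have hid' : ∀ z ∈ Bn n, ((t / 4 : ℝ) - ((1 / (4 * R) : ℝ) : ℂ) *
        lin (fun i => ((a * sg (e i) : ℝ) : ℂ)) z) * h 0 z +
        ∑ k : Fin N, ((1 / (2 * R ^ 2) : ℝ) * qf (G k) z) * h k.succ z = 1 := by
      intro z hz
      have h5 := hid z hz
      rw [Fin.sum_univ_succ] at h5
      simp only [Fin.cons_zero, Fin.cons_succ] at h5
      rw [eval_f0] at h5
      simp only [eval_f2] at h5
      exact h5
    have hM' : ∀ z ∈ Metric.closedBall (0 : Fin n → ℂ) r, ‖h 0 z‖ ≤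
        (c / (R ^ 2 * δ)) ^ (c * n) := by
      intro z hz
      refine hcon z ?_
      rw [Metric.mem_closedBall, dist_pi_le_iff hr0.le] at hz
      have h1 : ∀ i, ‖z i‖ ^ 2 ≤ r ^ 2 := by
        intro i
        have := hz i
        rw [Pi.zero_apply, dist_zero_right] at this
        exact pow_le_pow_left₀ (norm_nonneg _) this 2
      calc ∑ i, ‖z i‖ ^ 2 ≤ ∑ _i : Fin n, r ^ 2 := Finset.sum_le_sum fun i _ => h1 i
        _ = n * r ^ 2 := by simp
        _ < 1 / 4 := hrn4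
    have hlow := lower G hΨ hΨ0 hmax hann he hR0 ht0 ha0 hr0 hrn hh hid' hM'
    refine fin_est hn1 hγ hdγ hκ₁ hR0 ht0 ht1 hc0 hδ ?_ hc4 ?_ rfl hlow
    · rw [one_le_div (by positivity)]; exact hRδ.le
    · rw [div_pow, mul_pow, ht2, div_le_div_iff₀ (by positivity) (by positivity)]
      have h5 : c * s ≤ κ₁ ^ 2 := by
        rw [le_div_iff₀ hs0] at hc3; exact hc3
      calc c * (R ^ 2 * (s * δ)) = c * s * (R ^ 2 * δ) := by ring
        _ ≤ κ₁ ^ 2 * (R ^ 2 * δ) := by gcongr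

end Pool.Agent.H576.CR
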