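import Mathlib
import Pool.Graph.R_seed8.Helper633.SubMean
import Pool.Agent.H576.CR.Low

set_option autoImplicit false

/-!
# Sub-mean value property of `|F| ^ p` over balls
-/

open MeasureTheory Metric Set
open scoped ENNReal Real
open Pool.Agent.Helper633.SubMean

namespace Pool.Agent.H576.CR

variable {n : ℕ}

theorem sqrt_nsq (z : Fin n → ℂ) : Real.sqrt (nsq z) = ‖(WithLp.toLp 2 z : EuclideanSpace ℂ (Fin n))‖ := by
  rw [EuclideanSpace.norm_eq]
  rfl

theorem mem_Bn_of {w x : Fin n → ℂ} (hw : nsq w < 1 / 4) (hx : nsq (x - w) < 1 / 4) :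
    x ∈ Bn n := by
  have h1 : Real.sqrt (nsq x) ≤ Real.sqrt (nsq (x - w)) + Real.sqrt (nsq w) := by
    rw [sqrt_nsq, sqrt_nsq, sqrt_nsq]
    have := norm_add_le (WithLp.toLp 2 (x - w) : EuclideanSpace ℂ (Fin n)) (WithLp.toLp 2 w)
    rwa [← WithLp.toLp_add, sub_add_cancel] at this
  have h2 : ∀ y : Fin n → ℂ, nsq y < 1 / 4 → Real.sqrt (nsq y) < 1 / 2 := by
    intro y hy
    rw [Real.sqrt_lt' (by norm_num)]
    linarith
  have h3 : Real.sqrt (nsq x) < 1 := by linarith [h2 _ hw, h2 _ hx]
  rw [Real.sqrt_lt' one_pos] at h3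
  show nsq x < 1
  linarith

theorem nsq_smul (c : ℂ) (z : Fin n → ℂ) : nsq (c • z) = ‖c‖ ^ 2 * nsq z := by
  unfold nsq
  rw [Finset.mul_sum]
  refine Finset.sum_congr rfl fun i _ => ?_
  simp [mul_pow]

theorem measurePreserving_rot (w : Fin n → ℂ) (θ : ℝ) :
    MeasurePreserving (fun x : Fin n → ℂ => w + Complex.exp (θ * Complex.I) • (x - w))
      volume volume := by
  have h1 : MeasurePreserving (fun x : Fin n → ℂ => x - w) volume volume :=
    measurePreserving_sub_right volume w
  have h2 : MeasurePreserving (fun x : Fin n → ℂ => fun i => Complex.exp (θ * Complex.I) * x i)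
      volume volume :=
    volume_preserving_pi (f := fun (_ : Fin n) (z : ℂ) => Complex.exp (θ * Complex.I) * z)
      fun _ => mp_mul _ (norm_exp_I θ)
  have h3 : MeasurePreserving (fun x : Fin n → ℂ => w + x) volume volume :=
    measurePreserving_add_left volume w
  exact h3.comp (h2.comp h1)

theorem submean_ball {F : (Fin n → ℂ) → ℂ} (hF : DifferentiableOn ℂ F (Bn n)) {w : Fin n → ℂ}
    (hw : nsq w < 1 / 4) {p : ℝ} (hp : 0 < p) :
    ENNReal.ofReal (‖F w‖ ^ p) * (volume (Bn n) / 4 ^ n) ≤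
      ∫⁻ x in Bn n, ENNReal.ofReal (‖F x‖ ^ p) := by
  set Ω : Set (Fin n → ℂ) := {x | nsq (x - w) < 1 / 4} with hΩ
  have hcont : Continuous fun x : Fin n → ℂ => nsq (x - w) := by
    unfold nsq
    fun_prop
  have hΩo : IsOpen Ω := isOpen_lt hcont continuous_const
  have hΩB : Ω ⊆ Bn n := fun x hx => mem_Bn_of hw hx
  -- the volume
  have hvol : (volume : Measure (Fin n → ℂ)) Ω = volume (Bn n) / 4 ^ n := by
    have h1 : Ω = (fun x => x - w) ⁻¹' {x | q x < 1 / 4} := rfl
    rw [h1, (measurePreserving_sub_right volume w).measure_preimage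
      (isOpen_lt q_cont continuous_const).measurableSet.nullMeasurableSet,
      vol_q (1 / 4) (by norm_num)]
    have h2 : (Bn n : Set (Fin n → ℂ)) = {x | q x < 1} := rfl
    have h3 : ENNReal.ofReal ((1 / 4 : ℝ) ^ n) = (4 ^ n)⁻¹ := by
      rw [one_div, inv_pow, ENNReal.ofReal_inv_of_pos (by positivity),
        ENNReal.ofReal_pow (by norm_num)]
      norm_num
    rw [h2, h3, div_eq_mul_inv, mul_comm]
  -- the rotation
  set h : (Fin n → ℂ) → ℝ≥0∞ := Ω.indicator fun x => ENNReal.ofReal (‖F x‖ ^ p) with hh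
  have hFc : ContinuousOn (fun x => ENNReal.ofReal (‖F x‖ ^ p)) Ω := by
    refine ENNReal.continuous_ofReal.comp_continuousOn ?_
    exact ((hF.continuousOn.mono hΩB).norm).rpow_const fun x _ => Or.inr hp.le
  have hhm : Measurable h := by
    rw [hh]
    exact (hFc.measurable_piecewise continuousOn_const hΩo.measurableSet :
      Measurable (Ω.piecewise (fun x => ENNReal.ofReal (‖F x‖ ^ p)) fun _ => (0 : ℝ≥0∞)))
  have hinv : ∀ θ : ℝ, (fun x : Fin n → ℂ => w + Complex.exp (θ * Complex.I) • (x - w)) ⁻¹' Ω = Ω := by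
    intro θ
    ext x
    simp only [hΩ, mem_preimage, mem_ofPred_eq]
    rw [add_sub_cancel_left, nsq_smul, norm_exp_I, one_pow, one_mul]
  have hrot := rot (X := Fin n → ℂ) volume
    (fun θ x => w + Complex.exp (θ * Complex.I) • (x - w))
    (by apply Continuous.measurable; fun_prop)
    (measurePreserving_rot w) Ω hΩo.measurableSet hinv h hhm
    (fun _ => ENNReal.ofReal (‖F w‖ ^ p)) (by
      intro x hx
      have hg : DifferentiableOn ℂ (fun ζ : ℂ => F (w + ζ • (x - w)))
          {ζ | w + ζ • (x - w) ∈ Bn n} := by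
        intro ζ hζ
        have h1 : DifferentiableAt ℂ F (w + ζ • (x - w)) :=
          hF.differentiableAt ((isOpen_Bn n).mem_nhds hζ)
        have h2 : DifferentiableAt ℂ (fun ζ : ℂ => w + ζ • (x - w)) ζ := by fun_prop
        exact (h1.comp ζ h2).differentiableWithinAt
      have hopen : IsOpen {ζ : ℂ | w + ζ • (x - w) ∈ Bn n} :=
        (isOpen_Bn n).preimage (by fun_prop)
      have hsub : closedBall (0 : ℂ) 1 ⊆ {ζ : ℂ | w + ζ • (x - w) ∈ Bn n} := by
        intro ζ hζ
        rw [mem_closedBall_zero_iff] at hζ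
        refine mem_Bn_of hw ?_
        rw [add_sub_cancel_left, nsq_smul]
        have h1 : nsq (x - w) < 1 / 4 := hx
        have h2 : 0 ≤ nsq (x - w) := Finset.sum_nonneg fun i _ => by positivity
        have h3 : ‖ζ‖ ^ 2 ≤ 1 := by
          have := norm_nonneg ζ
          nlinarith
        nlinarith
      have h1 := circle_submean' (fun ζ : ℂ => F (w + ζ • (x - w))) 0 1 p one_pos hp
        ((hg.analyticOnNhd hopen).mono hsub)
      simp only [zero_smul, add_zero] at h1
      refine h1.trans (le_of_eq ?_)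
      refine lintegral_congr fun θ => ?_
      have h2 : circleMap 0 1 θ = Complex.exp (θ * Complex.I) := by simp [circleMap]
      have h3 : w + Complex.exp (θ * Complex.I) • (x - w) ∈ Ω := by
        have := hinv θ
        rw [Set.ext_iff] at this
        exact (this x).2 hx
      rw [h2, hh, indicator_of_mem h3])
  have h4 : ∫⁻ _x in Ω, ENNReal.ofReal (‖F w‖ ^ p) = ENNReal.ofReal (‖F w‖ ^ p) *
      (volume (Bn n) / 4 ^ n) := by
    rw [setLIntegral_const, hvol]
  rw [← h4]
  refine hrot.trans ?_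
  calc ∫⁻ x in Ω, h x = ∫⁻ x in Ω, ENNReal.ofReal (‖F x‖ ^ p) := by
        refine setLIntegral_congr_fun hΩo.measurableSet fun x hx => ?_
        rw [hh]
        exact indicator_of_mem hx _
    _ ≤ _ := lintegral_mono_set hΩB

end Pool.Agent.H576.CR
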